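import Pool.Agent.H69.JU.HPLa

/-!
# Row HPL: lines in the quaternionic projective space
-/

set_option autoImplicit false

namespace Pool.Agent.H69.JU

open Pool.Agent.H58.JU Pool.Agent.H59 Pool.Agent.H48.FR Pool.Agent.H58.FL
open scoped RealInnerProductSpace Quaternion

namespace HPL

noncomputable section

/-- an orthonormal pair -/
structure OP2 {n : ℕ} (e₁ e₂ : Fin (n + 1) → ℍ[ℝ]) : Prop where
  n1 : nrm e₁ = 1
  n2 : nrm e₂ = 1
  o : hp e₁ e₂ = 0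

variable {n : ℕ} {e₁ e₂ : Fin (n + 1) → ℍ[ℝ]}

/-- the square of the length of the projection -/
def pp (e₁ e₂ : Fin (n + 1) → ℍ[ℝ]) (x : PP ℍ[ℝ] n) : ℝ :=
  ‖hp (ur x) e₁‖ ^ 2 + ‖hp (ur x) e₂‖ ^ 2

/-- the direction of the projection -/
def wd (e₁ e₂ : Fin (n + 1) → ℍ[ℝ]) (x : PP ℍ[ℝ] n) : WW := wv (hp (ur x) e₁) (hp (ur x) e₂)

/-- the remaining part -/
def kk (e₁ e₂ : Fin (n + 1) → ℍ[ℝ]) (x y : PP ℍ[ℝ] n) : ℝ :=
  ov x y - pp e₁ e₂ x * pp e₁ e₂ y * ((1 + ⟪wd e₁ e₂ x, wd e₁ e₂ y⟫) / 2)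

theorem pp_nonneg (x : PP ℍ[ℝ] n) : 0 ≤ pp e₁ e₂ x := by
  unfold pp
  positivity

theorem pp_mk {u : Fin (n + 1) → ℍ[ℝ]} (hu : nrm u = 1) :
    pp e₁ e₂ (PP.mk u (ne_of_nrm hu)) = ‖hp u e₁‖ ^ 2 + ‖hp u e₂‖ ^ 2 := by
  obtain ⟨s, hs, h⟩ := ur_mk hu
  unfold pp
  rw [h, hp_smul_left, hp_smul_left, norm_mul, norm_mul, hs, one_mul, one_mul]

theorem wd_mk {u : Fin (n + 1) → ℍ[ℝ]} (hu : nrm u = 1) :
    wd e₁ e₂ (PP.mk u (ne_of_nrm hu)) = wv (hp u e₁) (hp u e₂) := by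
  obtain ⟨s, hs, h⟩ := ur_mk hu
  unfold wd
  rw [h, hp_smul_left, hp_smul_left, wv_smul hs]

theorem hp_e21 (he : OP2 e₁ e₂) : hp e₂ e₁ = 0 := by
  rw [← star_hp e₁ e₂, he.o, star_zero]

theorem hp_11 (he : OP2 e₁ e₂) : hp e₁ e₁ = 1 := by
  rw [hp_self, he.n1, one_pow, map_one]

theorem hp_22 (he : OP2 e₁ e₂) : hp e₂ e₂ = 1 := by
  rw [hp_self, he.n2, one_pow, map_one]

/-- the decomposition of the representatives -/
structure Dc (e₁ e₂ : Fin (n + 1) → ℍ[ℝ]) (u v : Fin (n + 1) → ℍ[ℝ]) : Prop where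
  eq : u = hp u e₁ • e₁ + hp u e₂ • e₂ + v
  o1 : hp v e₁ = 0
  o2 : hp v e₂ = 0
  sq : nrm u ^ 2 = ‖hp u e₁‖ ^ 2 + ‖hp u e₂‖ ^ 2 + nrm v ^ 2

theorem exists_dc (hBE2 : T_BE2) (he : OP2 e₁ e₂) (u : Fin (n + 1) → ℍ[ℝ]) :
    ∃ v, Dc e₁ e₂ u v := by
  obtain ⟨v, h1, h2, h3, h4⟩ := hBE2 ℍ[ℝ] (n + 1) e₁ e₂ he.n1 he.n2 he.o u
  exact ⟨v, h1, h2, h3, h4⟩

theorem pp_le (hBE2 : T_BE2) (he : OP2 e₁ e₂) (x : PP ℍ[ℝ] n) : pp e₁ e₂ x ≤ 1 := by
  obtain ⟨v, hv⟩ := exists_dc hBE2 he (ur x)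
  have h := hv.sq
  rw [nrm_ur, one_pow] at h
  unfold pp
  nlinarith [sq_nonneg (nrm v)]

theorem hp_dc (he : OP2 e₁ e₂) {u v u' v' : Fin (n + 1) → ℍ[ℝ]} (h : Dc e₁ e₂ u v)
    (h' : Dc e₁ e₂ u' v') :
    hp u u' = (hp u e₁ * star (hp u' e₁) + hp u e₂ * star (hp u' e₂)) + hp v v' := by
  have a1 : hp e₁ v' = 0 := by rw [← star_hp v' e₁, h'.o1, star_zero]
  have a2 : hp e₂ v' = 0 := by rw [← star_hp v' e₂, h'.o2, star_zero]
  conv_lhs => rw [h.eq, h'.eq]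
  simp only [hp_add_left, hp_add_right, hp_smul_left, hp_smul_right, he.o, hp_e21 he, hp_11 he,
    hp_22 he, h.o1, h.o2, a1, a2]
  simp only [mul_zero, zero_mul, mul_one, add_zero, zero_add]

theorem hp_two (a b a' b' : ℍ[ℝ]) :
    hp (![a, b] : Fin 2 → ℍ[ℝ]) ![a', b'] = a * star a' + b * star b' := by
  unfold hp
  rw [Fin.sum_univ_two]
  rfl

theorem kk_eq (he : OP2 e₁ e₂) (x y : PP ℍ[ℝ] n) {v v' : Fin (n + 1) → ℍ[ℝ]}
    (h : Dc e₁ e₂ (ur x) v) (h' : Dc e₁ e₂ (ur y) v') :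
    kk e₁ e₂ x y = 2 * re (hp (![hp (ur x) e₁, hp (ur x) e₂] : Fin 2 → ℍ[ℝ])
      ![hp (ur y) e₁, hp (ur y) e₂] * star (hp v v')) + re (hp v v' * star (hp v v')) := by
  unfold kk pp wd
  rw [fb, ov_ur, hp_dc he h h', Pool.Agent.H48.FR.norm_add_sq, re_self_mul_star, hp_two]
  ring

/-- Bessel's inequality for a point orthogonal to the line -/
theorem orth_le (hBES : T_BES) (he : OP2 e₁ e₂) {e₃ : Fin (n + 1) → ℍ[ℝ]} (h3 : nrm e₃ = 1)
    (o1 : hp e₃ e₁ = 0) (o2 : hp e₃ e₂ = 0) (u : PP ℍ[ℝ] n) :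
    ‖hp e₃ (ur u)‖ ^ 2 ≤ 1 - pp e₁ e₂ u := by
  have h := hBES ℍ[ℝ] (n + 1) e₁ e₂ e₃ (ur u) he.n1 he.n2 h3 he.o
    (by rw [← star_hp e₃ e₁, o1, star_zero]) (by rw [← star_hp e₃ e₂, o2, star_zero])
  rw [nrm_ur, one_pow] at h
  rw [norm_hp_comm e₃]
  unfold pp
  linarith

/-- the unit vectors of the plane -/
theorem nrm_comb (he : OP2 e₁ e₂) (a b : ℍ[ℝ]) :
    nrm (a • e₁ + b • e₂) ^ 2 = ‖a‖ ^ 2 + ‖b‖ ^ 2 := by
  rw [nrm_add_sq, nrm_smul, nrm_smul, he.n1, he.n2, hp_smul_left, hp_smul_right, he.o, zero_mul,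
    mul_zero, re_zero]
  ring

theorem hp_comb (he : OP2 e₁ e₂) (a b : ℍ[ℝ]) :
    hp (a • e₁ + b • e₂) e₁ = a ∧ hp (a • e₁ + b • e₂) e₂ = b := by
  constructor
  · rw [hp_add_left, hp_smul_left, hp_smul_left, hp_11 he, hp_e21 he, mul_one, mul_zero, add_zero]
  · rw [hp_add_left, hp_smul_left, hp_smul_left, hp_22 he, he.o, mul_one, mul_zero, zero_add]

theorem nrm_one_of_sq {m : ℕ} {u : Fin m → ℍ[ℝ]} (h : nrm u ^ 2 = 1) : nrm u = 1 := by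
  have h0 := nrm_nonneg u
  nlinarith

theorem nrm_zero {m : ℕ} {u : Fin m → ℍ[ℝ]} (h : nrm u ^ 2 = 0) : u = 0 :=
  (nrm_eq_zero_iff u).1 (pow_eq_zero_iff two_ne_zero |>.1 h)

/-- the circle through two orthogonal unit vectors -/
def cf (yh zh : Fin (n + 1) → ℍ[ℝ]) (φ : ℝ) : Fin (n + 1) → ℍ[ℝ] :=
  (rs (Real.cos φ) : ℍ[ℝ]) • yh + (rs (Real.sin φ) : ℍ[ℝ]) • zh

theorem nrm_cf {yh zh : Fin (n + 1) → ℍ[ℝ]} (hy : nrm yh = 1) (hz : nrm zh = 1)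
    (ho : hp yh zh = 0) (φ : ℝ) : nrm (cf yh zh φ) = 1 := by
  apply nrm_one_of_sq
  unfold cf
  rw [nrm_add_sq, nrm_smul, nrm_smul, hy, hz, hp_smul_left, hp_smul_right, ho, zero_mul, mul_zero,
    re_zero, norm_rs, norm_rs, mul_one, mul_one, sq_abs, sq_abs]
  have := Real.sin_sq_add_cos_sq φ
  linarith

theorem ov_cf (yh zh w : Fin (n + 1) → ℍ[ℝ]) (φ : ℝ) : ‖hp (cf yh zh φ) w‖ ^ 2 =
    Real.cos φ ^ 2 * ‖hp yh w‖ ^ 2 + Real.sin φ ^ 2 * ‖hp zh w‖ ^ 2 +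
      2 * (Real.sin φ * Real.cos φ) * re (hp yh w * star (hp zh w)) := by
  unfold cf
  rw [hp_add_left, hp_smul_left, hp_smul_left, Pool.Agent.H48.FR.norm_add_sq, norm_mul, norm_mul,
    norm_rs, norm_rs, mul_pow, mul_pow, sq_abs, sq_abs, star_mul, star_rs]
  have e : re (rs (Real.cos φ) * hp yh w * (star (hp zh w) * rs (Real.sin φ))) =
      Real.cos φ * Real.sin φ * re (hp yh w * star (hp zh w)) := by
    rw [← mul_assoc, re_mul_rs, mul_assoc, re_rs_mul]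
    ring
  rw [e]
  ring

/-- the line through two orthonormal vectors -/
theorem line (hKPO : T_KPO) (hBE2 : T_BE2) (hBES : T_BES) (he : OP2 e₁ e₂) (c c' : PP ℍ[ℝ] n)
    (hc : pp e₁ e₂ c = 1) (hc' : pp e₁ e₂ c' = 1) : Nonempty (Line (PP ℍ[ℝ] n) WW c c') := by
  choose vv hvv using fun x : PP ℍ[ℝ] n => exists_dc hBE2 he (ur x)
  refine ⟨{
    p := pp e₁ e₂
    w := wd e₁ e₂
    K := kk e₁ e₂
    p_mem := fun x => ⟨pp_nonneg x, pp_le hBE2 he x⟩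
    norm_w := fun x => norm_wv _ _
    K_comm := ?_
    K_pos := ?_
    dec := ?_
    p_left := hc
    p_right := hc'
    sur := ?_
    orth := ?_
    nor := ?_ }⟩
  · intro x y
    unfold kk
    rw [real_inner_comm, ov_ur, ov_ur, norm_hp_comm, mul_comm (pp e₁ e₂ x)]
  · intro N t x
    have h1 := hKPO ℍ[ℝ] 2 (n + 1) N
      (fun i => ![hp (ur (x i)) e₁, hp (ur (x i)) e₂]) (fun i => vv (x i)) t
    have h2 := hKPO ℍ[ℝ] (n + 1) (n + 1) N (fun i => vv (x i)) (fun i => vv (x i)) t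
    have e : ∑ i, ∑ j, t i * t j * kk e₁ e₂ (x i) (x j) =
        2 * ∑ i, ∑ j, t i * t j * re (hp (![hp (ur (x i)) e₁, hp (ur (x i)) e₂] : Fin 2 → ℍ[ℝ])
          ![hp (ur (x j)) e₁, hp (ur (x j)) e₂] * star (hp (vv (x i)) (vv (x j)))) +
        ∑ i, ∑ j, t i * t j * re (hp (vv (x i)) (vv (x j)) * star (hp (vv (x i)) (vv (x j)))) := by
      rw [Finset.mul_sum, ← Finset.sum_add_distrib]
      refine Finset.sum_congr rfl fun i _ => ?_
      rw [Finset.mul_sum, ← Finset.sum_add_distrib]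
      refine Finset.sum_congr rfl fun j _ => ?_
      rw [kk_eq he (x i) (x j) (hvv (x i)) (hvv (x j))]
      ring
    rw [e]
    linarith
  · intro x y
    unfold kk
    ring
  · intro v hv
    obtain ⟨a, b, hab, hw⟩ := sur_wv hv
    have hn : nrm (a • e₁ + b • e₂) = 1 := nrm_one_of_sq (by rw [nrm_comb he, hab])
    refine ⟨PP.mk _ (ne_of_nrm hn), ?_, ?_⟩
    · rw [pp_mk hn, (hp_comb he a b).1, (hp_comb he a b).2, hab]
    · rw [wd_mk hn, (hp_comb he a b).1, (hp_comb he a b).2, hw]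
  · intro x hx u
    have h0 : hp (ur x) e₁ = 0 ∧ hp (ur x) e₂ = 0 := zero_of hx
    rw [ov_ur]
    exact orth_le hBES he (nrm_ur x) h0.1 h0.2 u
  · intro x hx0 hx1
    set P : ℝ := pp e₁ e₂ x with hP
    set a : ℍ[ℝ] := hp (ur x) e₁ with ha
    set b : ℍ[ℝ] := hp (ur x) e₂ with hb
    set v : Fin (n + 1) → ℍ[ℝ] := vv x with hv
    have hd := hvv x
    have hPab : ‖a‖ ^ 2 + ‖b‖ ^ 2 = P := rfl
    have hvn : nrm v ^ 2 = 1 - P := by
      have h := hd.sq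
      rw [nrm_ur, one_pow] at h
      linarith
    have hQ : 0 < 1 - P := by linarith
    set sp : ℝ := Real.sqrt P with hsp
    set sq : ℝ := Real.sqrt (1 - P) with hsq
    have hsp0 : 0 < sp := Real.sqrt_pos.2 hx0
    have hsq0 : 0 < sq := Real.sqrt_pos.2 hQ
    have hsp2 : sp ^ 2 = P := Real.sq_sqrt hx0.le
    have hsq2 : sq ^ 2 = 1 - P := Real.sq_sqrt hQ.le
    set yh : Fin (n + 1) → ℍ[ℝ] := (rs sp⁻¹ : ℍ[ℝ]) • (a • e₁ + b • e₂) with hyh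
    set zh : Fin (n + 1) → ℍ[ℝ] := (rs sq⁻¹ : ℍ[ℝ]) • v with hzh
    have nyh : nrm yh = 1 := by
      apply nrm_one_of_sq
      rw [hyh, nrm_smul, mul_pow, nrm_comb he, norm_rs, sq_abs, hPab, inv_pow, hsp2,
        inv_mul_cancel₀ hx0.ne']
    have nzh : nrm zh = 1 := by
      apply nrm_one_of_sq
      rw [hzh, nrm_smul, mul_pow, norm_rs, sq_abs, hvn, inv_pow, hsq2, inv_mul_cancel₀ hQ.ne']
    have oz1 : hp zh e₁ = 0 := by rw [hzh, hp_smul_left, hd.o1, mul_zero]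
    have oz2 : hp zh e₂ = 0 := by rw [hzh, hp_smul_left, hd.o2, mul_zero]
    have a1 : hp e₁ zh = 0 := by rw [← star_hp zh e₁, oz1, star_zero]
    have a2 : hp e₂ zh = 0 := by rw [← star_hp zh e₂, oz2, star_zero]
    have oyz : hp yh zh = 0 := by
      rw [hyh, hp_smul_left, hp_add_left, hp_smul_left, hp_smul_left, a1, a2]
      simp
    have rs_inv : ∀ r : ℝ, r ≠ 0 → (rs r : ℍ[ℝ]) * rs r⁻¹ = 1 := by
      intro r hr
      rw [rs, rs, ← map_mul, mul_inv_cancel₀ hr, map_one]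
    have hcomb : (rs sp : ℍ[ℝ]) • yh + (rs sq : ℍ[ℝ]) • zh = ur x := by
      rw [hyh, hzh, smul_smul, smul_smul, rs_inv sp hsp0.ne', rs_inv sq hsq0.ne', one_smul,
        one_smul]
      exact hd.eq.symm
    set θ : ℝ := Real.arccos sp with hθ
    have hsp1 : sp ≤ 1 := Real.sqrt_le_one.2 hx1.le
    have hcos : Real.cos θ = sp := Real.cos_arccos (by linarith) hsp1
    have hsin : Real.sin θ = sq := by rw [hθ, Real.sin_arccos, hsp2]
    refine ⟨PP.mk yh (ne_of_nrm nyh), PP.mk zh (ne_of_nrm nzh),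
      fun u => re (hp yh (ur u) * star (hp zh (ur u))), θ,
      fun φ => PP.mk (cf yh zh φ) (ne_of_nrm (nrm_cf nyh nzh oyz φ)), ?_, ?_, ?_, ?_, ?_⟩
    · rw [pp_mk nyh, hyh, hp_smul_left, hp_smul_left, (hp_comb he a b).1, (hp_comb he a b).2,
        norm_mul, norm_mul, norm_rs, mul_pow, mul_pow, sq_abs, ← mul_add, hPab, inv_pow, hsp2,
        inv_mul_cancel₀ hx0.ne']
    · have e : cf yh zh θ = ur x := by
        unfold cf
        rw [hcos, hsin]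
        exact hcomb
      show PP.mk (cf yh zh θ) _ = x
      simp only [e]
      exact mk_ur x
    · rw [hcos, hsp2]
    · intro u
      rw [ov_mk nzh]
      exact orth_le hBES he nzh oz1 oz2 u
    · intro φ u
      rw [ov_mk nyh, ov_mk nzh, ov_mk (nrm_cf nyh nzh oyz φ), ov_cf]

end

end HPL

open HPL

/-- The statement of the row HPL. -/
theorem pf_HPL (hKPO : T_KPO) (hBE2 : T_BE2) (hBES : T_BES) : T_HPL := by
  intro n c c' hcc
  set e₁ : Fin (n + 1) → ℍ[ℝ] := ur c with he1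
  have n1 : nrm e₁ = 1 := nrm_ur c
  set a : ℍ[ℝ] := hp (ur c') e₁ with ha
  set v : Fin (n + 1) → ℍ[ℝ] := ur c' + (-a) • e₁ with hv
  have h11 : hp e₁ e₁ = (1 : ℍ[ℝ]) := by rw [hp_self, n1, one_pow, map_one]
  have hve : hp v e₁ = 0 := by
    rw [hv, hp_add_left, hp_smul_left, h11, mul_one, ← ha]
    exact add_neg_cancel a
  have hdec : ur c' = a • e₁ + v := by
    rw [hv, neg_smul]
    abel
  have hv0 : v ≠ 0 := by
    intro h0
    rw [h0, add_zero] at hdec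
    have ha0 : a ≠ 0 := by
      intro h1
      rw [h1, zero_smul] at hdec
      exact ne_of_nrm (nrm_ur c') hdec
    apply hcc
    rw [← mk_ur c, ← mk_ur c']
    exact ((PP.mk_eq_iff (ne_of_nrm (nrm_ur c')) (ne_of_nrm (nrm_ur c))).2
      ⟨a, ha0, hdec.symm⟩).symm
  obtain ⟨s, hs0, hs1⟩ := exists_unit hv0
  have he : OP2 e₁ (s • v) := by
    refine ⟨n1, hs1, ?_⟩
    rw [hp_smul_right, ← star_hp v e₁, hve, star_zero, zero_mul]
  have hns : ‖s‖ * nrm v = 1 := by rw [← nrm_smul, hs1]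
  refine line hKPO hBE2 hBES he c c' ?_ ?_
  · unfold HPL.pp
    rw [← he1, h11, hp_smul_right, ← star_hp v e₁, hve]
    simp
  · have h1 : nrm (ur c') ^ 2 = ‖a‖ ^ 2 + nrm v ^ 2 := by
      have h2 : hp e₁ v = 0 := by rw [← star_hp v e₁, hve, star_zero]
      rw [hdec, nrm_add_sq, nrm_smul, n1, hp_smul_left, h2, mul_zero, re_zero]
      ring
    rw [nrm_ur, one_pow] at h1
    have h3 : hp (ur c') (s • v) = hp v v * star s := by
      have h2 : hp e₁ v = 0 := by rw [← star_hp v e₁, hve, star_zero]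
      rw [hp_smul_right, hdec, hp_add_left, hp_smul_left, h2, mul_zero, zero_add]
    unfold HPL.pp
    rw [h3, norm_mul, norm_star', hp_self, norm_algebraMap'', ← ha, abs_of_nonneg (sq_nonneg _)]
    have h4 : nrm v ^ 2 * ‖s‖ = nrm v := by
      calc nrm v ^ 2 * ‖s‖ = (‖s‖ * nrm v) * nrm v := by ring
        _ = nrm v := by rw [hns, one_mul]
    rw [h4]
    exact h1.symm

end Pool.Agent.H69.JU
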