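import Pool.Agent.H58.JU.Targets

/-!
# Row SUJ: an isometry of a compact metric space into itself is onto
-/

set_option autoImplicit false

open Topology Set Filter Metric

namespace Pool.Agent.H69.JU

open Pool.Agent.H58.JU

theorem pf_SUJ : T_SUJ := by
  intro M _ _ φ hφ a
  by_contra hcon
  have hiso : Isometry φ := Isometry.of_dist_eq hφ
  have hcl : IsClosed (range φ) := (isCompact_range hiso.continuous).isClosed
  have hne : (range φ).Nonempty := ⟨φ a, a, rfl⟩
  have hna : a ∉ range φ := fun ⟨b, hb⟩ => hcon ⟨b, hb⟩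
  set ε : ℝ := infDist a (range φ) with hε
  have hε0 : 0 < ε := (hcl.notMem_iff_infDist_pos hne).1 hna
  have hit : ∀ (k : ℕ) (x y : M), dist (φ^[k] x) (φ^[k] y) = dist x y := by
    intro k
    induction k with
    | zero => intro x y; rfl
    | succ k ih =>
      intro x y
      rw [Function.iterate_succ_apply, Function.iterate_succ_apply, ih, hφ]
  have hsep : ∀ m n : ℕ, m < n → ε ≤ dist (φ^[m] a) (φ^[n] a) := by
    intro m n hmn
    obtain ⟨k, rfl⟩ : ∃ k, n = m + (k + 1) := ⟨n - m - 1, by omega⟩
    rw [Function.iterate_add_apply, hit, Function.iterate_succ_apply']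
    exact infDist_le_dist_of_mem ⟨_, rfl⟩
  obtain ⟨b, ns, hns, hlim⟩ := CompactSpace.tendsto_subseq fun n => φ^[n] a
  have hc := hlim.cauchySeq
  obtain ⟨N, hN⟩ := Metric.cauchySeq_iff.1 hc ε hε0
  have h1 := hN N le_rfl (N + 1) (by omega)
  have h2 := hsep (ns N) (ns (N + 1)) (hns (Nat.lt_succ_self N))
  simp only [Function.comp_apply] at h1
  linarith

end Pool.Agent.H69.JU
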