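import Pool.Agent.H58.JU.Targets

/-!
# Row HPL, first part: vectors
-/

set_option autoImplicit false

namespace Pool.Agent.H69.JU.HPL

open Pool.Agent.H58.JU Pool.Agent.H59 Pool.Agent.H48.FR Pool.Agent.H58.FL
open scoped RealInnerProductSpace Quaternion

noncomputable section

/-- the model of the line -/
abbrev WW : Type := WithLp 2 (ℝ × ℍ[ℝ])

/-- the direction, not normalised -/
def dr (a b : ℍ[ℝ]) : WW := WithLp.toLp 2 (‖a‖ ^ 2 - ‖b‖ ^ 2, (2 : ℝ) • (star a * b))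

theorem inner_H (a b : ℍ[ℝ]) : ⟪a, b⟫ = re (a * star b) := Quaternion.inner_def a b

theorem inner_dr (a b a' b' : ℍ[ℝ]) : ⟪dr a b, dr a' b'⟫ =
    (‖a‖ ^ 2 - ‖b‖ ^ 2) * (‖a'‖ ^ 2 - ‖b'‖ ^ 2) + 4 * re (star a * b * star (star a' * b')) := by
  rw [WithLp.prod_inner_apply]
  show ⟪(‖a‖ ^ 2 - ‖b‖ ^ 2 : ℝ), (‖a'‖ ^ 2 - ‖b'‖ ^ 2 : ℝ)⟫ +
    ⟪(2 : ℝ) • (star a * b), (2 : ℝ) • (star a' * b')⟫ = _
  rw [real_inner_smul_left, real_inner_smul_right, inner_H]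
  have e : ⟪(‖a‖ ^ 2 - ‖b‖ ^ 2 : ℝ), (‖a'‖ ^ 2 - ‖b'‖ ^ 2 : ℝ)⟫ =
      (‖a‖ ^ 2 - ‖b‖ ^ 2) * (‖a'‖ ^ 2 - ‖b'‖ ^ 2) := by
    simp [mul_comm]
  rw [e]
  ring

theorem re_cyc (a b a' b' : ℍ[ℝ]) :
    re (star a * b * star (star a' * b')) = re (a * star a' * star (b * star b')) := by
  rw [← re_star (star a * b * star (star a' * b'))]
  simp only [star_mul, star_star]
  rw [show star a' * b' * (star b * a) = (star a' * b' * star b) * a by simp only [mul_assoc],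
    re_mul_comm]
  simp only [mul_assoc]

theorem fa (a b a' b' : ℍ[ℝ]) : (‖a‖ ^ 2 + ‖b‖ ^ 2) * (‖a'‖ ^ 2 + ‖b'‖ ^ 2) +
    ⟪dr a b, dr a' b'⟫ = 2 * ‖a * star a' + b * star b'‖ ^ 2 := by
  rw [inner_dr, re_cyc, Pool.Agent.H48.FR.norm_add_sq, norm_mul, norm_mul, norm_star', norm_star']
  ring

/-- the direction -/
def wv (a b : ℍ[ℝ]) : WW :=
  if ‖a‖ ^ 2 + ‖b‖ ^ 2 = 0 then WithLp.toLp 2 (1, 0) else (‖a‖ ^ 2 + ‖b‖ ^ 2)⁻¹ • dr a b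

theorem self_eq (a b : ℍ[ℝ]) : ‖a * star a + b * star b‖ ^ 2 = (‖a‖ ^ 2 + ‖b‖ ^ 2) ^ 2 := by
  rw [self_mul_star, self_mul_star, ← map_add, norm_algebraMap'', sq_abs]

theorem norm_wv (a b : ℍ[ℝ]) : ‖wv a b‖ = 1 := by
  unfold wv
  split_ifs with h
  · have h1 : ‖(WithLp.toLp 2 (1, 0) : WW)‖ ^ 2 = 1 := by
      rw [← real_inner_self_eq_norm_sq, WithLp.prod_inner_apply]
      simp
    have h0 := norm_nonneg (WithLp.toLp 2 (1, 0) : WW)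
    nlinarith
  · have hP : 0 < ‖a‖ ^ 2 + ‖b‖ ^ 2 := lt_of_le_of_ne (by positivity) (Ne.symm h)
    have h1 : ‖dr a b‖ ^ 2 = (‖a‖ ^ 2 + ‖b‖ ^ 2) ^ 2 := by
      have := fa a b a b
      rw [self_eq, real_inner_self_eq_norm_sq] at this
      nlinarith
    have h2 : ‖dr a b‖ = ‖a‖ ^ 2 + ‖b‖ ^ 2 :=
      (pow_left_inj₀ (norm_nonneg _) hP.le two_ne_zero).1 h1
    rw [norm_smul, norm_inv, Real.norm_eq_abs, abs_of_pos hP, h2, inv_mul_cancel₀ hP.ne']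

theorem zero_of {a b : ℍ[ℝ]} (h : ‖a‖ ^ 2 + ‖b‖ ^ 2 = 0) : a = 0 ∧ b = 0 := by
  have h1 : ‖a‖ ^ 2 = 0 := by nlinarith [sq_nonneg ‖a‖, sq_nonneg ‖b‖]
  have h2 : ‖b‖ ^ 2 = 0 := by nlinarith [sq_nonneg ‖a‖, sq_nonneg ‖b‖]
  exact ⟨norm_eq_zero.1 (pow_eq_zero_iff two_ne_zero |>.1 h1),
    norm_eq_zero.1 (pow_eq_zero_iff two_ne_zero |>.1 h2)⟩

theorem fb (a b a' b' : ℍ[ℝ]) : (‖a‖ ^ 2 + ‖b‖ ^ 2) * (‖a'‖ ^ 2 + ‖b'‖ ^ 2) *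
    ((1 + ⟪wv a b, wv a' b'⟫) / 2) = ‖a * star a' + b * star b'‖ ^ 2 := by
  by_cases h : ‖a‖ ^ 2 + ‖b‖ ^ 2 = 0
  · obtain ⟨rfl, rfl⟩ := zero_of h
    simp
  · by_cases h' : ‖a'‖ ^ 2 + ‖b'‖ ^ 2 = 0
    · obtain ⟨rfl, rfl⟩ := zero_of h'
      simp
    · have e : ⟪wv a b, wv a' b'⟫ =
          (‖a‖ ^ 2 + ‖b‖ ^ 2)⁻¹ * ((‖a'‖ ^ 2 + ‖b'‖ ^ 2)⁻¹ * ⟪dr a b, dr a' b'⟫) := by
        unfold wv
        rw [if_neg h, if_neg h', real_inner_smul_left, real_inner_smul_right]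
      rw [e]
      have h1 := fa a b a' b'
      have h2 : ⟪dr a b, dr a' b'⟫ = 2 * ‖a * star a' + b * star b'‖ ^ 2 -
        (‖a‖ ^ 2 + ‖b‖ ^ 2) * (‖a'‖ ^ 2 + ‖b'‖ ^ 2) := by linarith
      rw [h2]
      field_simp
      ring

theorem dr_smul {s : ℍ[ℝ]} (hs : ‖s‖ = 1) (a b : ℍ[ℝ]) : dr (s * a) (s * b) = dr a b := by
  unfold dr
  have e : star (s * a) * (s * b) = star a * b := by
    rw [star_mul, mul_assoc, ← mul_assoc (star s) s b, star_mul_self, hs, one_pow, map_one, one_mul]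
  rw [norm_mul, norm_mul, hs, one_mul, one_mul, e]

theorem wv_smul {s : ℍ[ℝ]} (hs : ‖s‖ = 1) (a b : ℍ[ℝ]) : wv (s * a) (s * b) = wv a b := by
  unfold wv
  rw [dr_smul hs, norm_mul, norm_mul, hs, one_mul, one_mul]

/-- all directions occur -/
theorem sur_wv {v : WW} (hv : ‖v‖ = 1) : ∃ a b : ℍ[ℝ], ‖a‖ ^ 2 + ‖b‖ ^ 2 = 1 ∧ wv a b = v := by
  set r : ℝ := v.ofLp.1 with hr
  set q : ℍ[ℝ] := v.ofLp.2 with hq
  have hvq : v = WithLp.toLp 2 (r, q) := rfl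
  have hn : r ^ 2 + ‖q‖ ^ 2 = 1 := by
    have h1 : ‖v‖ ^ 2 = r ^ 2 + ‖q‖ ^ 2 := by
      rw [← real_inner_self_eq_norm_sq, WithLp.prod_inner_apply, real_inner_self_eq_norm_sq,
        real_inner_self_eq_norm_sq, Real.norm_eq_abs, sq_abs]
    rw [← h1, hv, one_pow]
  by_cases h : r = -1
  · have hq0 : q = 0 := by
      have : ‖q‖ ^ 2 = 0 := by rw [h] at hn; linarith
      exact norm_eq_zero.1 (pow_eq_zero_iff two_ne_zero |>.1 this)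
    refine ⟨0, 1, by simp, ?_⟩
    unfold wv
    rw [if_neg (by simp), hvq, h, hq0]
    simp [dr]
  · have hr1 : -1 < r := by
      refine lt_of_le_of_ne ?_ (Ne.symm h)
      nlinarith [sq_nonneg ‖q‖, sq_nonneg (r + 1)]
    set s : ℝ := Real.sqrt ((1 + r) / 2) with hs
    have hs2 : s ^ 2 = (1 + r) / 2 := Real.sq_sqrt (by linarith)
    have hs0 : 0 < s := Real.sqrt_pos.2 (by linarith)
    have e1 : ‖(rs s : ℍ[ℝ])‖ ^ 2 = (1 + r) / 2 := by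
      rw [norm_rs, sq_abs, hs2]
    have e2 : ‖(2 * s)⁻¹ • q‖ ^ 2 = (1 - r) / 2 := by
      rw [norm_smul, norm_inv, Real.norm_eq_abs, abs_of_pos (by positivity), mul_pow, inv_pow,
        mul_pow, hs2]
      have h3 : ‖q‖ ^ 2 = (1 - r) * (1 + r) := by linarith
      rw [h3]
      have h4 : 1 + r ≠ 0 := by linarith
      field_simp
    have e3 : ‖(rs s : ℍ[ℝ])‖ ^ 2 + ‖(2 * s)⁻¹ • q‖ ^ 2 = 1 := by
      rw [e1, e2]
      ring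
    refine ⟨rs s, (2 * s)⁻¹ • q, e3, ?_⟩
    unfold wv
    rw [e3, if_neg one_ne_zero, inv_one, one_smul, hvq]
    unfold dr
    rw [e1, e2]
    have e4 : (2 : ℝ) • (star (rs s : ℍ[ℝ]) * ((2 * s)⁻¹ • q)) = q := by
      rw [star_rs, rs, ← Algebra.smul_def, smul_smul, smul_smul]
      have : (2 : ℝ) * (s * (2 * s)⁻¹) = 1 := by field_simp
      rw [← mul_assoc] at this
      rw [this, one_smul]
    rw [e4]
    congr 2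
    ring

/-! ### points -/

variable {n : ℕ}

/-- a unit representative -/
def ur (x : PP ℍ[ℝ] n) : Fin (n + 1) → ℍ[ℝ] := (exists_unit x.rep_ne).choose • x.rep

theorem nrm_ur (x : PP ℍ[ℝ] n) : nrm (ur x) = 1 := (exists_unit x.rep_ne).choose_spec.2

theorem ne_of_nrm {u : Fin n → ℍ[ℝ]} (h : nrm u = 1) : u ≠ 0 := by
  intro h0
  rw [(nrm_eq_zero_iff u).2 h0] at h
  exact zero_ne_one h

theorem mk_ur (x : PP ℍ[ℝ] n) : PP.mk (ur x) (ne_of_nrm (nrm_ur x)) = x := by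
  have h := (PP.mk_eq_iff (ne_of_nrm (nrm_ur x)) x.rep_ne).2
    ⟨_, (exists_unit x.rep_ne).choose_spec.1, rfl⟩
  rw [h, PP.mk_rep]

theorem ov_mk_mk {u v : Fin (n + 1) → ℍ[ℝ]} (hu : nrm u = 1) (hv : nrm v = 1) :
    ov (PP.mk u (ne_of_nrm hu)) (PP.mk v (ne_of_nrm hv)) = ‖hp u v‖ ^ 2 := by
  unfold ov
  rw [dist_mk, pd_unit hu hv,
    Real.cos_arccos (by linarith [norm_nonneg (hp u v)]) (norm_hp_le_one hu hv)]

theorem ov_mk {u : Fin (n + 1) → ℍ[ℝ]} (hu : nrm u = 1) (y : PP ℍ[ℝ] n) :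
    ov (PP.mk u (ne_of_nrm hu)) y = ‖hp u (ur y)‖ ^ 2 := by
  have h := ov_mk_mk hu (nrm_ur y)
  rwa [mk_ur] at h

theorem ov_ur (x y : PP ℍ[ℝ] n) : ov x y = ‖hp (ur x) (ur y)‖ ^ 2 := by
  have h := ov_mk (nrm_ur x) y
  rwa [mk_ur] at h

theorem ur_mk {u : Fin (n + 1) → ℍ[ℝ]} (hu : nrm u = 1) :
    ∃ s : ℍ[ℝ], ‖s‖ = 1 ∧ ur (PP.mk u (ne_of_nrm hu)) = s • u := by
  obtain ⟨s, -, h⟩ := (PP.mk_eq_iff (ne_of_nrm (nrm_ur _)) (ne_of_nrm hu)).1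
    (mk_ur (PP.mk u (ne_of_nrm hu)))
  refine ⟨s, ?_, h.symm⟩
  have h1 := nrm_ur (PP.mk u (ne_of_nrm hu))
  rw [← h, nrm_smul, hu, mul_one] at h1
  exact h1

end

end Pool.Agent.H69.JU.HPL
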