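import Pool.Agent.H58.JU.Targets
import Pool.Agent.H79.FL.MVL

/-!
# Row MVI: the intersection of two open sets
-/

set_option autoImplicit false

open Topology Set

namespace Pool.Agent.H69.JU

open Pool.Agent.H58.JU Pool.Agent.H58.FL Pool.Agent.H59 Pool.Agent.H48.FR Pool.Agent.H79.FL.MVL

section

variable {Y : Type} [TopologicalSpace Y]

theorem Sd_zero (x : Ch ℤ 0 Y) : Sd 0 x = x := by
  refine lin_ext (f := Sd 0) (g := LinearMap.id) (fun σ => ?_) x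
  rw [Sd_single, LinearMap.id_apply]
  exact push_vtx 0 σ 1

theorem SdI_zero (m : ℕ) (x : Ch ℤ 0 Y) : SdI 0 m x = x := by
  induction m with
  | zero => rfl
  | succ m ih =>
    show Sd 0 (SdI 0 m x) = x
    rw [ih, Sd_zero]

/-- a cycle and its subdivision differ by a boundary -/
theorem sub_bd {W : Set Y} (n m : ℕ) (x : Ch ℤ n Y) (hx : x ∈ Sup n W) (hz : IsZ x) :
    ∃ e ∈ Sup (n + 1) W, bd ℤ n Y e = x - SdI n m x := by
  cases n with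
  | zero =>
    refine ⟨0, Submodule.zero_mem _, ?_⟩
    rw [SdI_zero, sub_self, map_zero]
  | succ n =>
    have h0 : bd ℤ n Y x = 0 := hz
    refine ⟨DI (n + 1) m x, DI_mem_Sup m hx, ?_⟩
    rw [bd_DI, h0, map_zero, sub_zero]

end

theorem pf_MVI : T_MVI := by
  intro Y _ O₁ O₂ h₁ h₂ hU n v₁ v₂ vY z hz
  set x : Ch ℤ n Y := pf ℤ n (inc (O₁ ∩ O₂)) z with hx
  have hxm : x ∈ Sup n (O₁ ∩ O₂) := pf_inc_mem z
  have hxz : IsZ x := isZ_to hz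
  obtain ⟨b₁, hb₁, e₁⟩ := vanS v₁ x (Sup_mono inter_subset_left hxm) hxz
  obtain ⟨b₂, hb₂, e₂⟩ := vanS v₂ x (Sup_mono inter_subset_right hxm) hxz
  obtain ⟨c, hc⟩ := vY (b₁ - b₂) (by
    show bd ℤ n Y (b₁ - b₂) = 0
    rw [map_sub, e₁, e₂, sub_self])
  obtain ⟨m, hm⟩ := small_all h₁ h₂ hU c
  obtain ⟨c₁, hc₁, c₂, hc₂, hs⟩ := split_Sml (hm m le_rfl)
  have hbc : bd ℤ (n + 1) Y c₁ + bd ℤ (n + 1) Y c₂ = SdI (n + 1) m b₁ - SdI (n + 1) m b₂ := by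
    rw [← map_add, hs, bd_SdI, hc, map_sub]
  set y : Ch ℤ (n + 1) Y := SdI (n + 1) m b₁ - bd ℤ (n + 1) Y c₁ with hy
  have hy2 : y = SdI (n + 1) m b₂ + bd ℤ (n + 1) Y c₂ := by
    have h3 : bd ℤ (n + 1) Y c₂ =
        SdI (n + 1) m b₁ - SdI (n + 1) m b₂ - bd ℤ (n + 1) Y c₁ := by
      rw [← hbc]
      abel
    rw [hy, h3]
    abel
  have hym : y ∈ Sup (n + 1) (O₁ ∩ O₂) := by
    refine Sup_inter ?_ ?_
    · exact Submodule.sub_mem _ (SdI_mem_Sup m hb₁) (bd_mem_Sup hc₁)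
    · rw [hy2]
      exact Submodule.add_mem _ (SdI_mem_Sup m hb₂) (bd_mem_Sup hc₂)
  have hby : bd ℤ n Y y = SdI n m x := by
    rw [hy, map_sub, bd_bd, sub_zero, bd_SdI, e₁]
  obtain ⟨e, he, hbe⟩ := sub_bd n m x hxm hxz
  have hw : y + e ∈ Sup (n + 1) (O₁ ∩ O₂) := Submodule.add_mem _ hym he
  have hbw : bd ℤ n Y (y + e) = x := by
    rw [map_add, hby, hbe]
    abel
  obtain ⟨b, hb⟩ := lift_Sup hw
  refine ⟨b, ?_⟩
  apply pf_inj (O₁ ∩ O₂) n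
  rw [← bd_pf, hb, hbw, hx]

end Pool.Agent.H69.JU
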